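import Pool.Agent.Helper76.P17.StC

/-!
# Project P17 (levels `17^n`), module TYP: maps of the plane and their types

Adapted from `Pool/Agent/Helper72/P13/M_TYP.lean`.
-/

set_option autoImplicit false

namespace Pool.Agent.Helper63.P17

open Pool.Agent.Helper76.P17

private theorem unit17 {m : ℕ} (a : ℤ) (ha : ¬ (17 : ℤ) ∣ a) (z : ZMod (17 ^ m)) :
    IsUnit ((a : ZMod (17 ^ m)) + 17 * z) := by
  obtain ⟨k, rfl⟩ := ZMod.intCast_surjective z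
  have h7 : Prime (17 : ℤ) := by norm_num
  have h1 : IsCoprime (17 : ℤ) (a + 17 * k) := by
    refine (Irreducible.coprime_iff_not_dvd h7.irreducible).mpr fun h => ha ?_
    exact (dvd_add_left (dvd_mul_right 17 k)).mp h
  obtain ⟨u, v, huv⟩ := h1.pow_left (m := m)
  refine IsUnit.of_mul_eq_one ((v : ZMod (17 ^ m))) ?_
  have h2 := congrArg (Int.cast : ℤ → ZMod (17 ^ m)) huv
  push_cast at h2
  have h3 : (17 : ZMod (17 ^ m)) ^ m = 0 := by
    have := ZMod.natCast_self (17 ^ m)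
    push_cast at this
    exact this
  rw [h3] at h2
  linear_combination h2

private theorem unitA (μ : ℕ) {m : ℕ} (a c : ℤ) (ha : ¬ (17 : ℤ) ∣ a) (x : ZMod (17 ^ m)) :
    IsUnit ((a : ZMod (17 ^ m)) + 17 ^ (μ + 1) * c * x) := by
  have h := unit17 (m := m) a ha (17 ^ μ * c * x)
  have e : (a : ZMod (17 ^ m)) + 17 * (17 ^ μ * c * x) = (a : ZMod (17 ^ m)) + 17 ^ (μ + 1) * c * x := by
    ring
  rwa [e] at h

private theorem frac_eq {n : ℕ} {x y s t : ZMod n} (hs : IsUnit s) (ht : IsUnit t)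
    (h : x * t = y * s) : x * s⁻¹ = y * t⁻¹ := by
  have h1 := ZMod.mul_inv_of_unit s hs
  have h2 := ZMod.mul_inv_of_unit t ht
  linear_combination (x * s⁻¹) * (-h2) + (y * t⁻¹) * h1 + s⁻¹ * t⁻¹ * h

/-- The fraction in the definition of `trp`. -/
private noncomputable def mob (μ : ℕ) {m : ℕ} (a b c d : ℤ) (t : ZMod (17 ^ m)) : ZMod (17 ^ m) :=
  ((b : ZMod (17 ^ m)) + d * t) * ((a : ZMod (17 ^ m)) + 17 ^ (μ + 1) * c * t)⁻¹

private theorem trp_eq (μ : ℕ) {m : ℕ} (a b c d : ℤ) (p : Pt m) :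
    trp μ a b c d p = (mob μ a b c d p.1, mob μ d c b a p.2) := rfl

private theorem mob_mob (μ : ℕ) {m : ℕ} (a b c d a' b' c' d' : ℤ) (ha : ¬ (17 : ℤ) ∣ a)
    (ha' : ¬ (17 : ℤ) ∣ a') (hA : ¬ (17 : ℤ) ∣ a * a' + 17 ^ (μ + 1) * b * c') (t : ZMod (17 ^ m)) :
    mob μ a' b' c' d' (mob μ a b c d t) =
      mob μ (a * a' + 17 ^ (μ + 1) * b * c') (a * b' + b * d') (c * a' + d * c')
        (17 ^ (μ + 1) * c * b' + d * d') t := by
  have h1 := ZMod.mul_inv_of_unit _ (unitA μ a c ha t)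
  refine frac_eq (unitA μ a' c' ha' _) (unitA μ _ _ hA t) ?_
  unfold mob
  push_cast
  linear_combination (d' * ((b : ZMod (17 ^ m)) + d * t) * a' -
    b' * (17 ^ (μ + 1) * c' * ((b : ZMod (17 ^ m)) + d * t))) * h1

private theorem mob_neg (μ : ℕ) {m : ℕ} (a b c d : ℤ) (ha : ¬ (17 : ℤ) ∣ a) (t : ZMod (17 ^ m)) :
    mob μ (-a) (-b) (-c) (-d) t = mob μ a b c d t := by
  have ha' : ¬ (17 : ℤ) ∣ -a := fun h => ha ((dvd_neg).mp h)
  refine frac_eq (unitA μ (-a) (-c) ha' t) (unitA μ a c ha t) ?_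
  push_cast
  ring

private theorem mob_id (μ : ℕ) {m : ℕ} (t : ZMod (17 ^ m)) : mob μ 1 0 0 1 t = t := by
  unfold mob
  simp

private theorem mob_arg_neg (μ : ℕ) {m : ℕ} (a b c d : ℤ) (t : ZMod (17 ^ m)) :
    mob μ a b c d (-t) = mob μ a b (-c) (-d) t := by
  unfold mob
  push_cast
  ring_nf

private theorem neg_mob (μ : ℕ) {m : ℕ} (a b c d : ℤ) (t : ZMod (17 ^ m)) :
    -mob μ a b c d t = mob μ a (-b) c (-d) t := by
  unfold mob
  push_cast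
  ring_nf

private theorem dv_mob (μ : ℕ) {m : ℕ} (a b c d s : ℤ) (ha : ¬ (17 : ℤ) ∣ a)
    (hs : (17 : ℤ) ∣ a * d - 17 ^ (μ + 1) * b * c - s * a ^ 2) :
    Dv s (mob μ a b c d : ZMod (17 ^ m) → ZMod (17 ^ m)) := by
  intro i x x' hx
  obtain ⟨k, hk⟩ := hx
  obtain ⟨q, hq⟩ := hs
  have hq' := congrArg (Int.cast : ℤ → ZMod (17 ^ m)) hq
  push_cast at hq'
  have h := ZMod.mul_inv_of_unit _ (unitA μ a c ha x)
  have h' := ZMod.mul_inv_of_unit _ (unitA μ a c ha x')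
  unfold mob
  set v := ((a : ZMod (17 ^ m)) + 17 ^ (μ + 1) * c * x)⁻¹ with hv
  set v' := ((a : ZMod (17 ^ m)) + 17 ^ (μ + 1) * c * x')⁻¹ with hv'
  refine ⟨k * v * v' * (q - s * (17 ^ μ * c * x * a + 17 ^ μ * c * x' * a +
    17 ^ μ * 17 ^ (μ + 1) * c ^ 2 * x * x')), ?_⟩
  linear_combination (((b : ZMod (17 ^ m)) + d * x') * v' + s * (x - x')) * h +
    (-((b : ZMod (17 ^ m)) + d * x) * v +
      s * (x - x') * (((a : ZMod (17 ^ m)) + 17 ^ (μ + 1) * c * x) * v)) * h' +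
    v * v' * ((a * d - 17 ^ (μ + 1) * b * c) - s * (((a : ZMod (17 ^ m)) + 17 ^ (μ + 1) * c * x) *
      ((a : ZMod (17 ^ m)) + 17 ^ (μ + 1) * c * x'))) * hk + 17 ^ i * k * v * v' * hq'

private theorem dv_neg {m : ℕ} : Dv (-1) (fun x : ZMod (17 ^ m) => -x) := by
  intro i x x' _
  refine ⟨0, ?_⟩
  push_cast
  ring

private theorem dv_id {m : ℕ} : Dv 1 (fun x : ZMod (17 ^ m) => x) := by
  intro i x x' _
  refine ⟨0, ?_⟩
  push_cast
  ring

private theorem ty0 {m : ℕ} (r : Pt m → Pt m) (μ : ℕ) (s s' : ℤ) (a b c d a' b' c' d' : ℤ)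
    (ha : ¬ (17 : ℤ) ∣ a) (ha' : ¬ (17 : ℤ) ∣ a') (h1 : ¬ (17 : ℤ) ∣ s) (h2 : ¬ (17 : ℤ) ∣ s - 1)
    (h3 : ¬ (17 : ℤ) ∣ s') (h4 : ¬ (17 : ℤ) ∣ s' - 1)
    (hs : (17 : ℤ) ∣ a * d - 17 ^ (μ + 1) * b * c - s * a ^ 2)
    (hs' : (17 : ℤ) ∣ a' * d' - 17 ^ (μ + 1) * b' * c' - s' * a' ^ 2)
    (h : ∀ p : Pt m, r p = (mob μ a b c d p.1, mob μ a' b' c' d' p.2)) : Ty 0 r :=
  Or.inl ⟨rfl, s, s', _, _, h1, h2, h3, h4, dv_mob μ a b c d s ha hs,
    dv_mob μ a' b' c' d' s' ha' hs', h⟩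

private theorem ty1 {m : ℕ} (r : Pt m → Pt m) (μ : ℕ) (s s' : ℤ) (a b c d a' b' c' d' : ℤ)
    (ha : ¬ (17 : ℤ) ∣ a) (ha' : ¬ (17 : ℤ) ∣ a') (h1 : ¬ (17 : ℤ) ∣ s) (h3 : ¬ (17 : ℤ) ∣ s')
    (hs : (17 : ℤ) ∣ a * d - 17 ^ (μ + 1) * b * c - s * a ^ 2)
    (hs' : (17 : ℤ) ∣ a' * d' - 17 ^ (μ + 1) * b' * c' - s' * a' ^ 2)
    (h : ∀ p : Pt m, r p = (mob μ a b c d p.2, mob μ a' b' c' d' p.1)) : Ty 1 r :=
  Or.inr ⟨rfl, s, s', _, _, h1, h3, dv_mob μ a b c d s ha hs, dv_mob μ a' b' c' d' s' ha' hs', h⟩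

/-- Composition of two fractional linear maps, up to the scalar `k`. -/
private theorem mm (μ : ℕ) (k : ℤ) {m : ℕ} (a b c d a' b' c' d' A B C D : ℤ) (ha : ¬ (17 : ℤ) ∣ a)
    (ha' : ¬ (17 : ℤ) ∣ a') (hA : ¬ (17 : ℤ) ∣ A) (hk : ¬ (17 : ℤ) ∣ k)
    (h1 : a * a' + 17 ^ (μ + 1) * b * c' = k * A) (h2 : a * b' + b * d' = k * B)
    (h3 : c * a' + d * c' = k * C) (h4 : 17 ^ (μ + 1) * c * b' + d * d' = k * D) (t : ZMod (17 ^ m)) :
    mob μ a' b' c' d' (mob μ a b c d t) = mob μ A B C D t := by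
  have h5 : Prime (17 : ℤ) := by norm_num
  have hkA : ¬ (17 : ℤ) ∣ k * A := fun h => (h5.dvd_or_dvd h).elim hk hA
  rw [mob_mob μ a b c d a' b' c' d' ha ha' (by rw [h1]; exact hkA) t, h1, h2, h3, h4]
  refine frac_eq (unitA μ _ _ hkA t) (unitA μ A C hA t) ?_
  push_cast
  ring

private theorem dR_eq (μ : ℕ) {m : ℕ} (p : Pt m) :
    dR μ p = (mob μ 1 (-1) 0 (-1) p.1, mob μ 1 0 1 (-1) p.2) := by
  show (mob μ 1 (-1) 0 1 (-p.1), mob μ 1 0 (-1) 1 (-p.2)) = _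
  rw [mob_arg_neg, mob_arg_neg]
  norm_num

private theorem dRdR (μ : ℕ) {m : ℕ} (p : Pt m) : dR μ (dR μ p) = p := by
  rw [dR_eq, dR_eq]
  refine Prod.ext ?_ ?_
  · show mob μ 1 (-1) 0 (-1) (mob μ 1 (-1) 0 (-1) p.1) = p.1
    rw [mob_mob _ _ _ _ _ _ _ _ _ (by norm_num) (by norm_num) (by norm_num)]
    norm_num [mob_id]
  · show mob μ 1 0 1 (-1) (mob μ 1 0 1 (-1) p.2) = p.2
    rw [mob_mob _ _ _ _ _ _ _ _ _ (by norm_num) (by norm_num) (by norm_num)]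
    norm_num [mob_id]

/-- a map `p ↦ M (sw p)` -/
private theorem ty_sw (μ : ℕ) {m : ℕ} (a b c d : ℤ) (ha : ¬ (17 : ℤ) ∣ a) (hd : ¬ (17 : ℤ) ∣ d)
    (h : a * d - 17 ^ (μ + 1) * b * c = 1) (r : Pt m → Pt m)
    (hr : ∀ p, r p = trp μ a b c d (sw p)) : Ty 1 r := by
  have h17 : Prime (17 : ℤ) := by norm_num
  refine ty1 r μ (d ^ 2) (a ^ 2) a b c d d c b a ha hd (fun h => hd (h17.dvd_of_dvd_pow h))
    (fun h => ha (h17.dvd_of_dvd_pow h)) ?_ ?_ hr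
  · refine ⟨-(17 ^ μ * b * c * (1 + a * d)), ?_⟩
    linear_combination (-(a * d)) * h
  · refine ⟨-(17 ^ μ * b * c * (1 + a * d)), ?_⟩
    linear_combination (-(a * d)) * h

private theorem ngsw_eq (μ : ℕ) {m : ℕ} (a b c d : ℤ) (p : Pt m) :
    trp μ a b c d (ng (sw p)) = (mob μ a b (-c) (-d) p.2, mob μ d c (-b) (-a) p.1) := by
  show (mob μ a b c d (-p.2), mob μ d c b a (-p.1)) = _
  rw [mob_arg_neg, mob_arg_neg]

private theorem ty_ngsw (μ : ℕ) {m : ℕ} (a b c d : ℤ) (ha : ¬ (17 : ℤ) ∣ a) (hd : ¬ (17 : ℤ) ∣ d)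
    (h : a * d - 17 ^ (μ + 1) * b * c = 1) (r : Pt m → Pt m)
    (hr : ∀ p, r p = trp μ a b c d (ng (sw p))) : Ty 1 r := by
  have h17 : Prime (17 : ℤ) := by norm_num
  refine ty1 r μ (-d ^ 2) (-a ^ 2) a b (-c) (-d) d c (-b) (-a) ha hd
    (fun h => hd (h17.dvd_of_dvd_pow ((dvd_neg).mp h)))
    (fun h => ha (h17.dvd_of_dvd_pow ((dvd_neg).mp h))) ?_ ?_ (fun p => (hr p).trans (ngsw_eq μ a b c d p))
  · refine ⟨17 ^ μ * b * c * (1 + a * d), ?_⟩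
    linear_combination (a * d) * h
  · refine ⟨17 ^ μ * b * c * (1 + a * d), ?_⟩
    linear_combination (a * d) * h

private theorem iv_sw (μ : ℕ) {m : ℕ} (a b d : ℤ) (ha : ¬ (17 : ℤ) ∣ a) (hd : ¬ (17 : ℤ) ∣ d)
    (h : a * d + 17 ^ (μ + 1) * b * b = 1) (r : Pt m → Pt m)
    (hr : ∀ p, r p = trp μ a b (-b) d (sw p)) : Iv r := by
  intro p
  rw [hr, hr]
  refine Prod.ext ((mm μ 1 d (-b) b a a b (-b) d 1 0 0 1 hd ha (by norm_num) (by norm_num) ?_ ?_ ?_ ?_ _).trans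
    (mob_id _ _)) ((mm μ 1 a b (-b) d d (-b) b a 1 0 0 1 ha hd (by norm_num) (by norm_num) ?_ ?_ ?_ ?_ _).trans
    (mob_id _ _))
  · linear_combination h
  · ring
  · ring
  · linear_combination h
  · linear_combination h
  · ring
  · ring
  · linear_combination h

private theorem iv_ngsw (μ : ℕ) {m : ℕ} (a b d : ℤ) (ha : ¬ (17 : ℤ) ∣ a) (hd : ¬ (17 : ℤ) ∣ d)
    (h : a * d - 17 ^ (μ + 1) * b * b = 1) (r : Pt m → Pt m)
    (hr : ∀ p, r p = trp μ a b b d (ng (sw p))) : Iv r := by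
  intro p
  rw [hr, hr, ngsw_eq, ngsw_eq]
  refine Prod.ext ((mm μ 1 d b (-b) (-a) a b (-b) (-d) 1 0 0 1 hd ha (by norm_num) (by norm_num) ?_ ?_ ?_ ?_ _).trans
    (mob_id _ _)) ((mm μ 1 a b (-b) (-d) d b (-b) (-a) 1 0 0 1 ha hd (by norm_num) (by norm_num) ?_ ?_ ?_ ?_ _).trans
    (mob_id _ _))
  · linear_combination h
  · ring
  · ring
  · linear_combination h
  · linear_combination h
  · ring
  · ring
  · linear_combination h

private theorem cO_eq {m : ℕ} (p : Pt m) :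
    cO p = (mob 0 2 (-1) 1 (-8) p.2, mob 0 (-8) 1 (-1) 2 p.1) := rfl

private theorem c4_eq {m : ℕ} (p : Pt m) :
    c4 p = (mob 0 4 (-1) 1 (-4) p.2, mob 0 (-4) 1 (-1) 4 p.1) := rfl

private theorem c8_eq {m : ℕ} (p : Pt m) :
    c8 p = (mob 1 2 (-1) 1 (-144) p.2, mob 1 (-144) 1 (-1) 2 p.1) := rfl

private theorem cQ_eq {m : ℕ} (p : Pt m) :
    cQ p = (mob 1 15 (-2) 2 (-77) p.2, mob 1 (-77) 2 (-2) 15 p.1) := rfl

private theorem cR_eq {m : ℕ} (p : Pt m) :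
    cR p = (mob 1 8 (-1) 1 (-36) p.2, mob 1 (-36) 1 (-1) 8 p.1) := rfl

private theorem rH_eq {m : ℕ} (p : Pt m) :
    rH p = (mob 0 3 (-1) 1 (-6) p.2, mob 0 6 (-1) 1 (-3) p.1) := by
  have h := ngsw_eq 0 3 (-1) (-1) 6 p
  norm_num at h
  exact h

private theorem dRcO {m : ℕ} (p : Pt m) :
    dR 0 (cO p) = (mob 0 2 (-1) 1 (-9) p.2, mob 0 9 (-1) 1 (-2) p.1) := by
  rw [cO_eq, dR_eq]
  exact Prod.ext (mm _ 1 _ _ _ _ _ _ _ _ _ _ _ _ (by norm_num) (by norm_num) (by norm_num) (by norm_num) (by norm_num) (by norm_num) (by norm_num) (by norm_num) _)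
    (mm _ 1 _ _ _ _ _ _ _ _ _ _ _ _ (by norm_num) (by norm_num) (by norm_num) (by norm_num) (by norm_num) (by norm_num) (by norm_num) (by norm_num) _)

private theorem cOdR {m : ℕ} (p : Pt m) :
    cO (dR 0 p) = (mob 0 2 (-1) 1 (-9) p.2, mob 0 9 (-1) 1 (-2) p.1) := by
  rw [dR_eq, cO_eq]
  exact Prod.ext (mm _ 1 _ _ _ _ _ _ _ _ _ _ _ _ (by norm_num) (by norm_num) (by norm_num) (by norm_num) (by norm_num) (by norm_num) (by norm_num) (by norm_num) _)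
    (mm _ 1 _ _ _ _ _ _ _ _ _ _ _ _ (by norm_num) (by norm_num) (by norm_num) (by norm_num) (by norm_num) (by norm_num) (by norm_num) (by norm_num) _)

private theorem dRc8 {m : ℕ} (p : Pt m) :
    dR 1 (c8 p) = (mob 1 2 (-1) 1 (-145) p.2, mob 1 145 (-1) 1 (-2) p.1) := by
  rw [c8_eq, dR_eq]
  exact Prod.ext (mm _ 1 _ _ _ _ _ _ _ _ _ _ _ _ (by norm_num) (by norm_num) (by norm_num) (by norm_num) (by norm_num) (by norm_num) (by norm_num) (by norm_num) _)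
    (mm _ 1 _ _ _ _ _ _ _ _ _ _ _ _ (by norm_num) (by norm_num) (by norm_num) (by norm_num) (by norm_num) (by norm_num) (by norm_num) (by norm_num) _)

private theorem c8dR {m : ℕ} (p : Pt m) :
    c8 (dR 1 p) = (mob 1 2 (-1) 1 (-145) p.2, mob 1 145 (-1) 1 (-2) p.1) := by
  rw [dR_eq, c8_eq]
  exact Prod.ext (mm _ 1 _ _ _ _ _ _ _ _ _ _ _ _ (by norm_num) (by norm_num) (by norm_num) (by norm_num) (by norm_num) (by norm_num) (by norm_num) (by norm_num) _)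
    (mm _ 1 _ _ _ _ _ _ _ _ _ _ _ _ (by norm_num) (by norm_num) (by norm_num) (by norm_num) (by norm_num) (by norm_num) (by norm_num) (by norm_num) _)

private theorem rHc4 {m : ℕ} (p : Pt m) :
    rH (c4 p) = (mob 0 5 (-2) 1 (-7) p.1, mob 0 7 (-1) 2 (-5) p.2) := by
  rw [c4_eq, rH_eq]
  exact Prod.ext (mm _ 1 _ _ _ _ _ _ _ _ _ _ _ _ (by norm_num) (by norm_num) (by norm_num) (by norm_num) (by norm_num) (by norm_num) (by norm_num) (by norm_num) _)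
    (mm _ 1 _ _ _ _ _ _ _ _ _ _ _ _ (by norm_num) (by norm_num) (by norm_num) (by norm_num) (by norm_num) (by norm_num) (by norm_num) (by norm_num) _)

private theorem cOrH {m : ℕ} (p : Pt m) :
    cO (rH p) = (mob 0 5 (-2) 1 (-7) p.1, mob 0 7 (-1) 2 (-5) p.2) := by
  rw [rH_eq, cO_eq]
  exact Prod.ext (mm _ (-1) _ _ _ _ _ _ _ _ _ _ _ _ (by norm_num) (by norm_num) (by norm_num) (by norm_num) (by norm_num) (by norm_num) (by norm_num) (by norm_num) _)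
    (mm _ (-1) _ _ _ _ _ _ _ _ _ _ _ _ (by norm_num) (by norm_num) (by norm_num) (by norm_num) (by norm_num) (by norm_num) (by norm_num) (by norm_num) _)

private theorem cQcR {m : ℕ} (p : Pt m) :
    cQ (cR p) = (mob 1 38 (-5) 1 (-38) p.1, mob 1 (-38) 1 (-5) 38 p.2) := by
  rw [cR_eq, cQ_eq]
  exact Prod.ext (mm _ 1 _ _ _ _ _ _ _ _ _ _ _ _ (by norm_num) (by norm_num) (by norm_num) (by norm_num) (by norm_num) (by norm_num) (by norm_num) (by norm_num) _)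
    (mm _ 1 _ _ _ _ _ _ _ _ _ _ _ _ (by norm_num) (by norm_num) (by norm_num) (by norm_num) (by norm_num) (by norm_num) (by norm_num) (by norm_num) _)

private theorem cRcQ {m : ℕ} (p : Pt m) :
    cR (cQ p) = (mob 1 38 (-5) 1 (-38) p.1, mob 1 (-38) 1 (-5) 38 p.2) := by
  rw [cQ_eq, cR_eq]
  exact Prod.ext (mm _ (-1) _ _ _ _ _ _ _ _ _ _ _ _ (by norm_num) (by norm_num) (by norm_num) (by norm_num) (by norm_num) (by norm_num) (by norm_num) (by norm_num) _)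
    (mm _ (-1) _ _ _ _ _ _ _ _ _ _ _ _ (by norm_num) (by norm_num) (by norm_num) (by norm_num) (by norm_num) (by norm_num) (by norm_num) (by norm_num) _)

/-- Module TYP. -/
theorem hTyp : HTyp := by
  intro m
  have hsw : Ty 1 (sw : Pt m → Pt m) :=
    Or.inr ⟨rfl, 1, 1, _, _, by norm_num, by norm_num, dv_id, dv_id, fun p => rfl⟩
  refine ⟨⟨⟨?_, fun _ => rfl, fun _ => rfl⟩, ?_, hsw, ?_⟩,
    ⟨⟨dRdR 0, (iv_sw 0 2 (-1) (-8) (by norm_num) (by norm_num) (by norm_num) _ (fun _ => rfl)), fun p => (dRcO p).trans (cOdR p).symm⟩,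
      (ty0 _ 0 16 16 _ _ _ _ _ _ _ _ (by norm_num) (by norm_num) (by norm_num) (by norm_num) (by norm_num) (by norm_num) (by norm_num) (by norm_num) (dR_eq 0)),
      (ty_sw 0 2 (-1) 1 (-8) (by norm_num) (by norm_num) (by norm_num) _ (fun _ => rfl)),
      (ty1 _ 0 4 13 _ _ _ _ _ _ _ _ (by norm_num) (by norm_num) (by norm_num) (by norm_num) (by norm_num) (by norm_num) dRcO)⟩,
    ⟨⟨fun _ => rfl, (iv_sw 0 4 (-1) (-4) (by norm_num) (by norm_num) (by norm_num) _ (fun _ => rfl)), ?_⟩,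
      (ty_sw 0 4 (-1) 1 (-4) (by norm_num) (by norm_num) (by norm_num) _ (fun _ => rfl)),
      (ty0 _ 0 16 16 _ _ _ _ _ _ _ _ (by norm_num) (by norm_num) (by norm_num) (by norm_num) (by norm_num) (by norm_num) (by norm_num) (by norm_num) (fun _ => rfl))⟩,
    ⟨(iv_ngsw 0 3 (-1) 6 (by norm_num) (by norm_num) (by norm_num) _ (fun _ => rfl)), (ty_ngsw 0 3 (-1) (-1) 6 (by norm_num) (by norm_num) (by norm_num) _ (fun _ => rfl)), fun p => (rHc4 p).trans (cOrH p).symm⟩,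
    ⟨⟨dRdR 1, (iv_sw 1 2 (-1) (-144) (by norm_num) (by norm_num) (by norm_num) _ (fun _ => rfl)), fun p => (dRc8 p).trans (c8dR p).symm⟩,
      (ty0 _ 1 16 16 _ _ _ _ _ _ _ _ (by norm_num) (by norm_num) (by norm_num) (by norm_num) (by norm_num) (by norm_num) (by norm_num) (by norm_num) (dR_eq 1)),
      (ty_sw 1 2 (-1) 1 (-144) (by norm_num) (by norm_num) (by norm_num) _ (fun _ => rfl)),
      (ty1 _ 1 4 13 _ _ _ _ _ _ _ _ (by norm_num) (by norm_num) (by norm_num) (by norm_num) (by norm_num) (by norm_num) dRc8)⟩,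
    ⟨⟨(iv_sw 1 15 (-2) (-77) (by norm_num) (by norm_num) (by norm_num) _ (fun _ => rfl)), (iv_sw 1 8 (-1) (-36) (by norm_num) (by norm_num) (by norm_num) _ (fun _ => rfl)), fun p => (cQcR p).trans (cRcQ p).symm⟩,
      (ty_sw 1 15 (-2) 2 (-77) (by norm_num) (by norm_num) (by norm_num) _ (fun _ => rfl)),
      (ty_sw 1 8 (-1) 1 (-36) (by norm_num) (by norm_num) (by norm_num) _ (fun _ => rfl)),
      (ty0 _ 1 16 16 _ _ _ _ _ _ _ _ (by norm_num) (by norm_num) (by norm_num) (by norm_num) (by norm_num) (by norm_num) (by norm_num) (by norm_num) cQcR)⟩,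
    ⟨?_, ?_, ?_⟩⟩
  · intro p
    simp [ng]
  · exact Or.inl ⟨rfl, -1, -1, _, _, by norm_num, by norm_num, by norm_num, by norm_num, dv_neg,
      dv_neg, fun p => rfl⟩
  · exact Or.inr ⟨rfl, -1, -1, _, _, by norm_num, by norm_num, dv_neg, dv_neg, fun p => rfl⟩
  · intro p
    refine Prod.ext ?_ ?_
    · exact mob_neg 0 4 (-1) 1 (-4) (by norm_num) p.1
    · exact (mob_neg 0 4 (-1) 1 (-4) (by norm_num) p.2).symm
  · intro i
    fin_cases i
    · exact ⟨(iv_sw 1 133 (-9) (-176) (by norm_num) (by norm_num) (by norm_num) _ (fun _ => rfl)), (ty_sw 1 133 (-9) 9 (-176) (by norm_num) (by norm_num) (by norm_num) _ (fun _ => rfl))⟩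
    · exact ⟨(iv_sw 1 40 (-3) (-65) (by norm_num) (by norm_num) (by norm_num) _ (fun _ => rfl)), (ty_sw 1 40 (-3) 3 (-65) (by norm_num) (by norm_num) (by norm_num) _ (fun _ => rfl))⟩
    · exact ⟨(iv_sw 1 12 (-1) (-24) (by norm_num) (by norm_num) (by norm_num) _ (fun _ => rfl)), (ty_sw 1 12 (-1) 1 (-24) (by norm_num) (by norm_num) (by norm_num) _ (fun _ => rfl))⟩
    · exact ⟨(iv_sw 1 21 (-2) (-55) (by norm_num) (by norm_num) (by norm_num) _ (fun _ => rfl)), (ty_sw 1 21 (-2) 2 (-55) (by norm_num) (by norm_num) (by norm_num) _ (fun _ => rfl))⟩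
    · exact ⟨(iv_sw 1 6 (-1) (-48) (by norm_num) (by norm_num) (by norm_num) _ (fun _ => rfl)), (ty_sw 1 6 (-1) 1 (-48) (by norm_num) (by norm_num) (by norm_num) _ (fun _ => rfl))⟩
    · exact ⟨(iv_sw 1 4 (-1) (-72) (by norm_num) (by norm_num) (by norm_num) _ (fun _ => rfl)), (ty_sw 1 4 (-1) 1 (-72) (by norm_num) (by norm_num) (by norm_num) _ (fun _ => rfl))⟩
  · intro i
    fin_cases i
    · exact ⟨(iv_ngsw 1 10 (-1) 29 (by norm_num) (by norm_num) (by norm_num) _ (fun _ => rfl)), (ty_ngsw 1 10 (-1) (-1) 29 (by norm_num) (by norm_num) (by norm_num) _ (fun _ => rfl))⟩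
    · exact ⟨(iv_ngsw 1 13 (-2) 89 (by norm_num) (by norm_num) (by norm_num) _ (fun _ => rfl)), (ty_ngsw 1 13 (-2) (-2) 89 (by norm_num) (by norm_num) (by norm_num) _ (fun _ => rfl))⟩
    · exact ⟨(iv_ngsw 1 5 (-1) 58 (by norm_num) (by norm_num) (by norm_num) _ (fun _ => rfl)), (ty_ngsw 1 5 (-1) (-1) 58 (by norm_num) (by norm_num) (by norm_num) _ (fun _ => rfl))⟩
  · intro i
    fin_cases i
    · exact (ty_sw 1 15 (-4) 1 (-77) (by norm_num) (by norm_num) (by norm_num) _ (fun _ => rfl))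
    · exact (ty_ngsw 1 44 (-17) (-3) 335 (by norm_num) (by norm_num) (by norm_num) _ (fun _ => rfl))
    · exact (ty_ngsw 1 43 (-6) (-3) 121 (by norm_num) (by norm_num) (by norm_num) _ (fun _ => rfl))
    · exact (ty_ngsw 1 14 (-3) (-1) 62 (by norm_num) (by norm_num) (by norm_num) _ (fun _ => rfl))
    · exact (ty_ngsw 1 13 (-4) (-1) 89 (by norm_num) (by norm_num) (by norm_num) _ (fun _ => rfl))
    · exact (ty_sw 1 11 (-4) 1 (-105) (by norm_num) (by norm_num) (by norm_num) _ (fun _ => rfl))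
    · exact (ty_ngsw 1 7 (-3) (-1) 124 (by norm_num) (by norm_num) (by norm_num) _ (fun _ => rfl))

end Pool.Agent.Helper63.P17
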